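import Pool.Agent.Helper90.Lw.Scalar

set_option autoImplicit false

namespace Pool.Agent.Helper90.Lw

open Finset

theorem arith_b (r A B M2 W D T ν : ℝ) (hr : 2 ≤ r)
    (e2 : B ≤ (r - 2) * (A - 2 * W)) (e4 : T ≤ M2) (e7 : r * A - B + r * M2 / 2 ≤ r * ν)
    (hD : 2 * D ≤ M2) :
    2 * A + T - r * (ν - (2 * W + D)) ≤ 2 * (2 * W + D) := by
  have e10 : 0 ≤ (r - 2) * (M2 - 2 * D) := mul_nonneg (by linarith) (by linarith)
  nlinarith

theorem arith_f (G α x y : ℝ) (hs : 0 < G - α) (hx : x ≤ G) (hy : y ≤ G) :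
    (G - α) * (x + y - (G + α)) ≤ max 0 (x - α) * max 0 (y - α) := by
  rcases le_or_gt x α with h | h
  · rw [max_eq_left (by linarith : x - α ≤ 0), zero_mul]
    nlinarith
  · rcases le_or_gt y α with h' | h'
    · rw [max_eq_left (by linarith : y - α ≤ 0), mul_zero]
      nlinarith
    · rw [max_eq_right (by linarith : 0 ≤ x - α), max_eq_right (by linarith : 0 ≤ y - α)]
      nlinarith [mul_nonneg (sub_nonneg.2 hx) (sub_nonneg.2 hy)]

theorem arith_one (G α x y : ℝ) (hα : 0 ≤ α) (hs : 0 < G - α) (hx : x ≤ G)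
    (hx0 : 0 ≤ x) (hy0 : 0 ≤ y) :
    max 0 (x - α) * max 0 (y - α) ≤ (G - α) * (x + y) := by
  have h1 : max 0 (x - α) ≤ G - α := max_le hs.le (by linarith)
  have h2 : max 0 (y - α) ≤ x + y := max_le (by linarith) (by linarith)
  exact mul_le_mul h1 h2 (le_max_left _ _) hs.le

section
variable {ι : Type} [Fintype ι] [DecidableEq ι]

theorem deg_le (i1 : ι) (m : ι → ι → ℝ)
    (hm0 : ∀ i j, 0 ≤ m i j) (hms : ∀ i j, m i j = m j i) (hmd : ∀ i, m i i = 0) :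
    2 * ∑ j, m i1 j ≤ ∑ i, ∑ j, m i j := by
  have e1 : ∑ i, ∑ j, m i j = ∑ j, m i1 j + ∑ i ∈ univ.erase i1, ∑ j, m i j := by
    rw [← Finset.add_sum_erase univ (fun i => ∑ j, m i j) (mem_univ i1)]
  have e2 : ∑ i ∈ univ.erase i1, m i i1 ≤ ∑ i ∈ univ.erase i1, ∑ j, m i j :=
    Finset.sum_le_sum fun i _ => Finset.single_le_sum (fun j _ => hm0 i j) (mem_univ i1)
  have e3 : ∑ i ∈ univ.erase i1, m i i1 = ∑ j, m i1 j := by
    rw [← Finset.add_sum_erase univ (fun j => m i1 j) (mem_univ i1), hmd, zero_add]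
    exact Finset.sum_congr rfl fun i _ => hms i i1
  linarith

theorem alpha_nonneg (i1 i2 : ι) (h12 : i1 ≠ i2) (w : ι → ℂ) (hw : w i1 + w i2 = 0)
    (M2 D ν : ℝ) (hD : 2 * D ≤ M2)
    (hν : ν = ∑ i, ‖w i‖ ^ 2 + (1 / 2) * M2 - ‖∑ i, w i‖ ^ 2 / Fintype.card ι) :
    0 ≤ ν - (2 * ‖w i1‖ ^ 2 + D) := by
  have : Nonempty ι := ⟨i1⟩
  have hcardn : (0 : ℝ) < (Fintype.card ι : ℝ) := by exact_mod_cast Fintype.card_pos
  have e1 := ccs_two univ i1 i2 (mem_univ _) (mem_univ _) h12 w hw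
  rw [Finset.card_univ] at e1
  have e2 : 0 ≤ ∑ i, ‖w i‖ ^ 2 - 2 * ‖w i1‖ ^ 2 := by
    have e3 : ‖w i1‖ ^ 2 + ‖w i2‖ ^ 2 ≤ ∑ i, ‖w i‖ ^ 2 := by
      have := Finset.sum_le_univ_sum_of_nonneg (s := {i1, i2}) (f := fun i => ‖w i‖ ^ 2)
        (fun i => by positivity)
      rwa [Finset.sum_pair h12] at this
    have e4 : ‖w i2‖ = ‖w i1‖ := by
      have : w i2 = - w i1 := by rw [eq_neg_iff_add_eq_zero, add_comm]; exact hw
      rw [this, norm_neg]
    rw [e4] at e3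
    linarith
  have e5 : ‖∑ i, w i‖ ^ 2 / (Fintype.card ι : ℝ) ≤ ∑ i, ‖w i‖ ^ 2 - 2 * ‖w i1‖ ^ 2 := by
    rw [div_le_iff₀ hcardn]
    nlinarith
  linarith

/-- The key inequality over the active indices. -/
theorem key_ineq (i1 i2 : ι) (h12 : i1 ≠ i2) (w : ι → ℂ) (m : ι → ι → ℝ)
    (hm0 : ∀ i j, 0 ≤ m i j) (hms : ∀ i j, m i j = m j i) (hmd : ∀ i, m i i = 0)
    (hw : w i1 + w i2 = 0) (g : ι → ℝ) (hg : ∀ i, g i = 2 * ‖w i‖ ^ 2 + ∑ j, m i j)
    (h1 : ∀ i, g i ≤ g i1) (h2 : ∀ i, i ≠ i1 → g i ≤ g i2) (ν : ℝ)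
    (hν : ν = ∑ i, ‖w i‖ ^ 2 + (1 / 2) * ∑ i, ∑ j, m i j - ‖∑ i, w i‖ ^ 2 / Fintype.card ι)
    (hα : 0 ≤ ν - g i1) (hcase : ν - g i1 < g i1)
    (I : Finset ι) (hI : I = univ.filter fun i => ν - g i1 < g i) :
    (∑ i ∈ I, (g i - (ν - g i1))) ^ 2 / 4 ≤
      g i1 ^ 2 - (ν - g i1) ^ 2 + cq I g (fun i => w i * ((g i - (ν - g i1) : ℝ) : ℂ)) := by
  have : Nonempty ι := ⟨i1⟩
  have hwg : ∀ i, 2 * ‖w i‖ ^ 2 ≤ g i := fun i => by
    rw [hg]
    have := Finset.sum_nonneg fun j (_ : j ∈ univ) => hm0 i j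
    linarith
  have hd0 : ∀ i, 0 ≤ ∑ j, m i j := fun i => Finset.sum_nonneg fun j _ => hm0 i j
  have hdeg := deg_le i1 m hm0 hms hmd
  set M2 : ℝ := ∑ i, ∑ j, m i j with hM2
  have hgα : ∀ i ∈ I, ν - g i1 < g i := fun i hi => by
    rw [hI] at hi; exact (Finset.mem_filter.1 hi).2
  have hgpos : ∀ i ∈ I, 0 < g i := fun i hi => lt_of_le_of_lt hα (hgα i hi)
  have hi1 : i1 ∈ I := by rw [hI]; exact Finset.mem_filter.2 ⟨mem_univ _, hcase⟩
  have hIne : I.Nonempty := ⟨i1, hi1⟩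
  have hcI : (0 : ℝ) < (I.card : ℝ) := by exact_mod_cast hIne.card_pos
  by_cases hi2 : i2 ∈ I
  · have e1 := cvar_le I hIne w
    have e3 : ∑ i ∈ I, g i = 2 * ∑ i ∈ I, ‖w i‖ ^ 2 + ∑ i ∈ I, ∑ j, m i j := by
      rw [Finset.mul_sum, ← Finset.sum_add_distrib]
      exact Finset.sum_congr rfl fun i _ => hg i
    have e4 : ∑ i ∈ I, ∑ j, m i j ≤ M2 :=
      Finset.sum_le_univ_sum_of_nonneg fun i => hd0 i
    refine main_scalar I g w (g i1) (ν - g i1) hα hcase hgα (fun i _ => h1 i)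
      (fun i _ => hwg i) ?_ ?_
    · have e5 : ∑ i ∈ I, g i - 2 * (g i1 + (ν - g i1)) ≤
          2 * (‖∑ i ∈ I, w i‖ ^ 2 / (I.card : ℝ)) := by
        have e6 : g i1 + (ν - g i1) = ν := by ring
        rw [e6, hν]
        linarith
      calc ((I.card : ℝ) / 2) * (∑ i ∈ I, g i - 2 * (g i1 + (ν - g i1))) ≤
          ((I.card : ℝ) / 2) * (2 * (‖∑ i ∈ I, w i‖ ^ 2 / (I.card : ℝ))) :=
            mul_le_mul_of_nonneg_left e5 (by positivity)
        _ = ‖∑ i ∈ I, w i‖ ^ 2 := by field_simp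
    · have hc2 : (2 : ℝ) ≤ (I.card : ℝ) := by
        have : ({i1, i2} : Finset ι) ⊆ I := by
          intro i hi
          rcases Finset.mem_insert.1 hi with h | h
          · rw [h]; exact hi1
          · rw [Finset.mem_singleton.1 h]; exact hi2
        have := Finset.card_le_card this
        rw [Finset.card_pair h12] at this
        exact_mod_cast this
      have e2 := ccs_two I i1 i2 hi1 hi2 h12 w hw
      have e5 : ∑ i ∈ I, (g i - (ν - g i1)) = ∑ i ∈ I, g i - (I.card : ℝ) * (ν - g i1) := by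
        rw [Finset.sum_sub_distrib, Finset.sum_const, nsmul_eq_mul]
      have e6 : ∑ i ∈ I, ‖w i‖ ^ 2 - ‖∑ i ∈ I, w i‖ ^ 2 / (I.card : ℝ) + M2 / 2 ≤ ν := by
        rw [hν]; linarith
      have e7 : (I.card : ℝ) * ∑ i ∈ I, ‖w i‖ ^ 2 - ‖∑ i ∈ I, w i‖ ^ 2 +
          (I.card : ℝ) * M2 / 2 ≤ (I.card : ℝ) * ν := by
        have e8 := mul_le_mul_of_nonneg_left e6 hcI.le
        have e9 : (I.card : ℝ) * (∑ i ∈ I, ‖w i‖ ^ 2 - ‖∑ i ∈ I, w i‖ ^ 2 / (I.card : ℝ) +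
            M2 / 2) = (I.card : ℝ) * ∑ i ∈ I, ‖w i‖ ^ 2 - ‖∑ i ∈ I, w i‖ ^ 2 +
            (I.card : ℝ) * M2 / 2 := by
          field_simp
        linarith
      rw [e5, e3, hg i1]
      exact arith_b _ _ _ M2 _ _ _ ν hc2 e2 e4 e7 hdeg
  · have hI1 : I = {i1} := by
      ext i
      rw [Finset.mem_singleton]
      constructor
      · intro hi
        by_contra hne
        have h3 := h2 i hne
        apply hi2
        rw [hI]
        exact Finset.mem_filter.2 ⟨mem_univ _, lt_of_lt_of_le (hgα i hi) h3⟩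
      · rintro rfl; exact hi1
    have hQ := cq_nonneg I g hgpos (fun i => w i * ((g i - (ν - g i1) : ℝ) : ℂ))
    have e1 : ∑ i ∈ I, (g i - (ν - g i1)) = g i1 - (ν - g i1) := by
      rw [hI1, Finset.sum_singleton]
    rw [e1]
    have hs : 0 < g i1 - (ν - g i1) := by linarith
    have e2 : (g i1 - (ν - g i1)) ^ 2 / 4 ≤ g i1 ^ 2 - (ν - g i1) ^ 2 := by
      have : g i1 ^ 2 - (ν - g i1) ^ 2 = (g i1 - (ν - g i1)) * (g i1 + (ν - g i1)) := by ring
      rw [this]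
      nlinarith
    linarith

omit [DecidableEq ι] in
/-- Rewriting of the trace sum. -/
theorem trace_sum (I : Finset ι) (g δ : ι → ℝ) (w : ι → ℂ) (s α : ℝ) (hs : 0 < s)
    (hgpos : ∀ i ∈ I, 0 < g i) (hδI : ∀ i ∈ I, δ i = g i - α) (hδn : ∀ i, i ∉ I → δ i = 0) :
    ∑ i, ∑ j, δ i * δ j / (s * (g i + g j)) *
        ((g i + g j) / 2 - 2 * (starRingEnd ℂ (w i) * w j).re) =
      (1 / s) * ((∑ i ∈ I, (g i - α)) ^ 2 / 2 -
        2 * cq I g (fun i => w i * ((g i - α : ℝ) : ℂ))) := by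
  have sumI : ∀ F : ι → ℝ, (∀ i, i ∉ I → F i = 0) → ∑ i, F i = ∑ i ∈ I, F i := by
    intro F hF
    symm
    exact Finset.sum_subset (Finset.subset_univ I) fun i _ hi => hF i hi
  rw [sumI _ (fun i hi => by simp [hδn i hi])]
  have e5 : (∑ i ∈ I, (g i - α)) ^ 2 / 2 = ∑ i ∈ I, ∑ j ∈ I, (g i - α) * (g j - α) / 2 := by
    rw [sq, Finset.sum_mul_sum, Finset.sum_div]
    exact Finset.sum_congr rfl fun i _ => Finset.sum_div _ _ _
  unfold cq
  rw [e5, Finset.mul_sum, ← Finset.sum_sub_distrib, Finset.mul_sum]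
  refine Finset.sum_congr rfl fun i hi => ?_
  rw [sumI _ (fun j hj => by simp [hδn j hj]), Finset.mul_sum, ← Finset.sum_sub_distrib,
    Finset.mul_sum]
  refine Finset.sum_congr rfl fun j hj => ?_
  rw [hδI i hi, hδI j hj]
  have e4 : starRingEnd ℂ (w i * ((g i - α : ℝ) : ℂ)) * (w j * ((g j - α : ℝ) : ℂ)) =
      (((g i - α) * (g j - α) : ℝ) : ℂ) * (starRingEnd ℂ (w i) * w j) := by
    rw [map_mul, Complex.conj_ofReal]; push_cast; ring
  rw [e4, Complex.re_ofReal_mul]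
  have p1 := hgpos i hi
  have p2 := hgpos j hj
  have p3 : g i + g j ≠ 0 := by positivity
  field_simp

theorem exists_weights (i1 i2 : ι) (h12 : i1 ≠ i2) (w : ι → ℂ) (m : ι → ι → ℝ)
    (hm0 : ∀ i j, 0 ≤ m i j) (hms : ∀ i j, m i j = m j i) (hmd : ∀ i, m i i = 0)
    (hw : w i1 + w i2 = 0) (g : ι → ℝ) (hg : ∀ i, g i = 2 * ‖w i‖ ^ 2 + ∑ j, m i j)
    (h1 : ∀ i, g i ≤ g i1) (h2 : ∀ i, i ≠ i1 → g i ≤ g i2) (ν : ℝ)
    (hν : ν = ∑ i, ‖w i‖ ^ 2 + (1 / 2) * ∑ i, ∑ j, m i j - ‖∑ i, w i‖ ^ 2 / Fintype.card ι) :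
    ∃ f : ι → ι → ℝ, (∀ i j, f i j = f j i) ∧ (∀ i j, 0 ≤ f i j) ∧ (∀ i j, f i j ≤ 1) ∧
      (∀ i j, (1 - f i j) * (g i + g j) ≤ ν) ∧
      ∑ i, ∑ j, f i j * ((g i + g j) / 2 - 2 * (starRingEnd ℂ (w i) * w j).re) ≤ 2 * ν := by
  have hg0 : ∀ i, 0 ≤ g i := fun i => by
    rw [hg]
    have := Finset.sum_nonneg fun j (_ : j ∈ univ) => hm0 i j
    positivity
  have hdeg := deg_le i1 m hm0 hms hmd
  have hα : 0 ≤ ν - g i1 := by
    have := alpha_nonneg i1 i2 h12 w hw _ _ ν hdeg hν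
    rwa [← hg i1] at this
  have hG0 : 0 ≤ g i1 := hg0 i1
  have hν0 : 0 ≤ ν := by linarith
  rcases le_or_gt (g i1) (ν - g i1) with hcase | hcase
  · refine ⟨fun _ _ => 0, fun _ _ => rfl, fun _ _ => le_rfl, fun _ _ => zero_le_one, ?_, ?_⟩
    · intro i j
      have := h1 i
      have := h1 j
      simp only [sub_zero, one_mul]
      linarith
    · simp only [zero_mul, Finset.sum_const_zero]
      linarith
  have hs : 0 < g i1 - (ν - g i1) := by linarith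
  refine ⟨fun i j => max 0 (g i - (ν - g i1)) * max 0 (g j - (ν - g i1)) /
    ((g i1 - (ν - g i1)) * (g i + g j)), ?_, ?_, ?_, ?_, ?_⟩
  · intro i j
    dsimp only
    rw [mul_comm (max 0 (g i - (ν - g i1))), add_comm (g i)]
  · intro i j
    exact div_nonneg (mul_nonneg (le_max_left _ _) (le_max_left _ _))
      (mul_nonneg hs.le (add_nonneg (hg0 i) (hg0 j)))
  · intro i j
    exact div_le_one_of_le₀ (arith_one (g i1) (ν - g i1) (g i) (g j) hα hs (h1 i) (hg0 i) (hg0 j))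
      (mul_nonneg hs.le (add_nonneg (hg0 i) (hg0 j)))
  · intro i j
    dsimp only
    have hsum0 : 0 ≤ g i + g j := add_nonneg (hg0 i) (hg0 j)
    rcases hsum0.lt_or_eq with hpos | h0
    · have e1 : (1 - max 0 (g i - (ν - g i1)) * max 0 (g j - (ν - g i1)) /
          ((g i1 - (ν - g i1)) * (g i + g j))) * (g i + g j) =
          (g i + g j) - max 0 (g i - (ν - g i1)) * max 0 (g j - (ν - g i1)) /
            (g i1 - (ν - g i1)) := by
        have hs' : g i1 - (ν - g i1) ≠ 0 := hs.ne'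
        have hp' : g i + g j ≠ 0 := hpos.ne'
        generalize max 0 (g i - (ν - g i1)) * max 0 (g j - (ν - g i1)) = P at *
        generalize g i1 - (ν - g i1) = s at *
        generalize g i + g j = t at *
        field_simp
      rw [e1]
      have e2 := arith_f (g i1) (ν - g i1) (g i) (g j) hs (h1 i) (h1 j)
      have e3 : g i1 + (ν - g i1) = ν := by ring
      rw [e3] at e2
      have e7 : g i + g j - ν ≤ max 0 (g i - (ν - g i1)) * max 0 (g j - (ν - g i1)) /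
          (g i1 - (ν - g i1)) := by
        rw [le_div_iff₀ hs]; linarith
      linarith
    · rw [← h0, mul_zero]; exact hν0
  · have hkey := key_ineq i1 i2 h12 w m hm0 hms hmd hw g hg h1 h2 ν hν hα hcase
      (univ.filter fun i => ν - g i1 < g i) rfl
    rw [trace_sum (univ.filter fun i => ν - g i1 < g i) g
      (fun i => max 0 (g i - (ν - g i1))) w (g i1 - (ν - g i1)) (ν - g i1) hs
      (fun i hi => lt_of_le_of_lt hα (Finset.mem_filter.1 hi).2)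
      (fun i hi => max_eq_right (by linarith [(Finset.mem_filter.1 hi).2]))
      (fun i hi => max_eq_left (by
        have : ¬ ν - g i1 < g i := fun h => hi (Finset.mem_filter.2 ⟨mem_univ _, h⟩)
        linarith))]
    rw [one_div, inv_mul_le_iff₀ hs]
    have e1 : (g i1 - (ν - g i1)) * (2 * ν) = 2 * (g i1 ^ 2 - (ν - g i1) ^ 2) := by ring
    rw [e1]
    linarith

end

end Pool.Agent.Helper90.Lw
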