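import Mathlib

set_option autoImplicit false

namespace Pool.Agent.Helper90.Lw

open Finset

/-- The quadratic form attached to the Cauchy kernel `1/(x+y)`. -/
noncomputable def cq {ι : Type} (s : Finset ι) (g : ι → ℝ) (u : ι → ℂ) : ℝ :=
  ∑ i ∈ s, ∑ j ∈ s, (starRingEnd ℂ (u i) * u j).re / (g i + g j)

theorem normsq_sum {ι : Type} (s : Finset ι) (z : ι → ℂ) :
    ‖∑ i ∈ s, z i‖ ^ 2 = ∑ i ∈ s, ∑ j ∈ s, (starRingEnd ℂ (z i) * z j).re := by
  have h1 : ((‖∑ i ∈ s, z i‖ ^ 2 : ℝ) : ℂ) =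
      starRingEnd ℂ (∑ i ∈ s, z i) * (∑ i ∈ s, z i) := by
    rw [mul_comm, Complex.mul_conj, Complex.normSq_eq_norm_sq]
  have h2 : ‖∑ i ∈ s, z i‖ ^ 2 = (starRingEnd ℂ (∑ i ∈ s, z i) * (∑ i ∈ s, z i)).re := by
    rw [← h1]; exact (Complex.ofReal_re _).symm
  rw [h2, map_sum, Finset.sum_mul_sum, Complex.re_sum]
  refine Finset.sum_congr rfl fun i _ => ?_
  rw [Complex.re_sum]

theorem cq_split {ι : Type} (s : Finset ι) (g : ι → ℝ) (u : ι → ℂ) (hg : ∀ i ∈ s, 0 < g i)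
    (c : ℝ) (hc : 0 < c) :
    cq s g u = 2 * c * ‖∑ i ∈ s, u i * ((1 / (g i + c) : ℝ) : ℂ)‖ ^ 2 +
      cq s g (fun i => u i * (((g i - c) / (g i + c) : ℝ) : ℂ)) := by
  unfold cq
  rw [normsq_sum, Finset.mul_sum, ← Finset.sum_add_distrib]
  refine Finset.sum_congr rfl fun i hi => ?_
  rw [Finset.mul_sum, ← Finset.sum_add_distrib]
  refine Finset.sum_congr rfl fun j hj => ?_
  have hx := hg i hi
  have hy := hg j hj
  have e1 : (starRingEnd ℂ (u i * ((1 / (g i + c) : ℝ) : ℂ)) *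
      (u j * ((1 / (g j + c) : ℝ) : ℂ))).re =
      (starRingEnd ℂ (u i) * u j).re * (1 / (g i + c)) * (1 / (g j + c)) := by
    have : starRingEnd ℂ (u i * ((1 / (g i + c) : ℝ) : ℂ)) *
      (u j * ((1 / (g j + c) : ℝ) : ℂ)) =
      (((1 / (g i + c)) * (1 / (g j + c)) : ℝ) : ℂ) * (starRingEnd ℂ (u i) * u j) := by
      rw [map_mul, Complex.conj_ofReal]; push_cast; ring
    rw [this, Complex.re_ofReal_mul]; ring
  have e2 : (starRingEnd ℂ (u i * (((g i - c) / (g i + c) : ℝ) : ℂ)) *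
      (u j * (((g j - c) / (g j + c) : ℝ) : ℂ))).re =
      (starRingEnd ℂ (u i) * u j).re * ((g i - c) / (g i + c)) * ((g j - c) / (g j + c)) := by
    have : starRingEnd ℂ (u i * (((g i - c) / (g i + c) : ℝ) : ℂ)) *
      (u j * (((g j - c) / (g j + c) : ℝ) : ℂ)) =
      ((((g i - c) / (g i + c)) * ((g j - c) / (g j + c)) : ℝ) : ℂ) *
        (starRingEnd ℂ (u i) * u j) := by
      rw [map_mul, Complex.conj_ofReal]; push_cast; ring
    rw [this, Complex.re_ofReal_mul]; ring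
  rw [e1, e2]
  have h1 : g i + c ≠ 0 := by positivity
  have h2 : g j + c ≠ 0 := by positivity
  have h3 : g i + g j ≠ 0 := by positivity
  field_simp
  ring

theorem cq_nonneg {ι : Type} [DecidableEq ι] (s : Finset ι) (g : ι → ℝ)
    (hg : ∀ i ∈ s, 0 < g i) (u : ι → ℂ) : 0 ≤ cq s g u := by
  induction s using Finset.induction_on generalizing u with
  | empty => simp [cq]
  | insert a s ha ih =>
    have hga : 0 < g a := hg a (Finset.mem_insert_self a s)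
    rw [cq_split _ g u hg (g a) hga]
    have h1 : 0 ≤ 2 * g a * ‖∑ i ∈ insert a s, u i * ((1 / (g i + g a) : ℝ) : ℂ)‖ ^ 2 := by
      positivity
    have h2 : cq (insert a s) g (fun i => u i * (((g i - g a) / (g i + g a) : ℝ) : ℂ)) =
        cq s g (fun i => u i * (((g i - g a) / (g i + g a) : ℝ) : ℂ)) := by
      unfold cq
      rw [Finset.sum_insert ha]
      have e : ∀ j, (starRingEnd ℂ (u a * (((g a - g a) / (g a + g a) : ℝ) : ℂ)) *
          (u j * (((g j - g a) / (g j + g a) : ℝ) : ℂ))).re / (g a + g j) = 0 := by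
        intro j; simp
      rw [Finset.sum_eq_zero (fun j _ => e j), zero_add]
      refine Finset.sum_congr rfl fun i _ => ?_
      rw [Finset.sum_insert ha]
      simp
    rw [h2]
    have h3 := ih (fun i hi => hg i (Finset.mem_insert_of_mem hi))
      (fun i => u i * (((g i - g a) / (g i + g a) : ℝ) : ℂ))
    linarith

theorem cq_ge {ι : Type} [DecidableEq ι] (s : Finset ι) (g : ι → ℝ)
    (hg : ∀ i ∈ s, 0 < g i) (u : ι → ℂ) (c : ℝ) (hc : 0 < c) :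
    2 * c * ‖∑ i ∈ s, u i * ((1 / (g i + c) : ℝ) : ℂ)‖ ^ 2 ≤ cq s g u := by
  rw [cq_split s g u hg c hc]
  have := cq_nonneg s g hg (fun i => u i * (((g i - c) / (g i + c) : ℝ) : ℂ))
  linarith

/-- The elementary inequality for one index. -/
theorem term_ineq (x gi G α c τ : ℝ) (hc : 0 < c) (hτc : τ ^ 2 = 2 * c)
    (hx : 2 * x ^ 2 ≤ gi) (hgi : 0 < gi) (hG : gi ≤ G) (hα : 0 ≤ α) :
    τ * (x * (G - α)) / (G + c) - (c + α) * (G - gi) / (2 * (G + c)) ≤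
      τ * (x * (gi - α)) / (gi + c) := by
  have h1 : 2 * τ * x ≤ gi + c := by nlinarith [sq_nonneg (2 * x - τ)]
  have hGc : 0 < G + c := by linarith
  have hgc : 0 < gi + c := by linarith
  have key : τ * (x * (gi - α)) / (gi + c) -
      (τ * (x * (G - α)) / (G + c) - (c + α) * (G - gi) / (2 * (G + c))) =
      (c + α) * (G - gi) * (gi + c - 2 * τ * x) / (2 * (G + c) * (gi + c)) := by
    field_simp
    ring
  have h2 : 0 ≤ (c + α) * (G - gi) * (gi + c - 2 * τ * x) / (2 * (G + c) * (gi + c)) := by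
    apply div_nonneg
    · apply mul_nonneg
      · apply mul_nonneg <;> linarith
      · linarith
    · positivity
  linarith

/-- Lower bound for the Cauchy form. -/
theorem cq_lower {ι : Type} [DecidableEq ι] (s : Finset ι) (g : ι → ℝ) (w : ι → ℂ)
    (G α Θ X μ : ℝ) (hα : 0 ≤ α) (hαG : α < G)
    (hgα : ∀ i ∈ s, α < g i) (hgG : ∀ i ∈ s, g i ≤ G) (hw : ∀ i ∈ s, 2 * ‖w i‖ ^ 2 ≤ g i)
    (hΘ : Θ = ∑ i ∈ s, (G - g i)) (hX : X = ‖∑ i ∈ s, w i‖)
    (hμ0 : 0 ≤ μ) (hμ : 2 * G * μ ^ 2 - Θ * μ - X ^ 2 = 0)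
    (hf : 0 < (G - α) * μ - Θ / 2) :
    ((G - α) * μ - Θ / 2) ^ 2 ≤ cq s g (fun i => w i * ((g i - α : ℝ) : ℂ)) := by
  have hG : 0 < G := lt_of_le_of_lt hα hαG
  have hgpos : ∀ i ∈ s, 0 < g i := fun i hi => lt_of_le_of_lt hα (hgα i hi)
  have hΘ0 : 0 ≤ Θ := by
    rw [hΘ]; exact Finset.sum_nonneg fun i hi => by linarith [hgG i hi]
  have hX0 : 0 ≤ X := by rw [hX]; positivity
  have hμpos : 0 < μ := by
    rcases hμ0.lt_or_eq with h | h
    · exact h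
    · rw [← h] at hf; nlinarith
  have hXpos : 0 < X := by
    rcases hX0.lt_or_eq with h | h
    · exact h
    · exfalso
      rw [← h] at hμ
      have h1 : μ * (2 * G * μ - Θ) = 0 := by nlinarith
      have h2 : 2 * G * μ - Θ = 0 := by
        rcases mul_eq_zero.1 h1 with h3 | h3
        · exact absurd h3 hμpos.ne'
        · exact h3
      nlinarith [mul_nonneg hα hμ0]
  set τ : ℝ := X / μ with hτdef
  have hτ : 0 < τ := by positivity
  set c : ℝ := τ ^ 2 / 2 with hcdef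
  have hc : 0 < c := by positivity
  have hτc : τ ^ 2 = 2 * c := by rw [hcdef]; ring
  -- the phase
  set sw : ℂ := ∑ i ∈ s, w i with hsw
  set θ : ℂ := sw / X with hθ
  have hθn : ‖θ‖ = 1 := by
    rw [hθ, norm_div, ← hX, Complex.norm_real, Real.norm_of_nonneg hX0]
    exact div_self hXpos.ne'
  set x : ι → ℝ := fun i => (starRingEnd ℂ θ * w i).re with hx
  have hxn : ∀ i, x i ^ 2 ≤ ‖w i‖ ^ 2 := by
    intro i
    have h1 : |x i| ≤ ‖starRingEnd ℂ θ * w i‖ := Complex.abs_re_le_norm _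
    rw [norm_mul, RCLike.norm_conj, hθn, one_mul] at h1
    rw [← sq_abs]
    exact pow_le_pow_left₀ (abs_nonneg _) h1 2
  have hxsum : ∑ i ∈ s, x i = X := by
    have h1 : ∑ i ∈ s, x i = (starRingEnd ℂ θ * sw).re := by
      rw [hsw, Finset.mul_sum, Complex.re_sum]
    rw [h1]
    have h2 : starRingEnd ℂ θ * sw = ((X : ℝ) : ℂ) := by
      have hXc : (X : ℂ) ≠ 0 := by exact_mod_cast hXpos.ne'
      have h3 : sw = θ * X := by
        rw [hθ, div_mul_cancel₀ _ hXc]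
      have h4 : starRingEnd ℂ θ * θ = 1 := by
        rw [mul_comm, Complex.mul_conj, Complex.normSq_eq_norm_sq, hθn]; simp
      calc starRingEnd ℂ θ * sw = (starRingEnd ℂ θ * θ) * X := by rw [h3]; ring
        _ = X := by rw [h4, one_mul]
    rw [h2, Complex.ofReal_re]
  -- the linear functional
  set L : ℂ := ∑ i ∈ s, (w i * ((g i - α : ℝ) : ℂ)) * ((1 / (g i + c) : ℝ) : ℂ) with hL
  have hLre : (starRingEnd ℂ θ * L).re = ∑ i ∈ s, x i * (g i - α) / (g i + c) := by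
    rw [hL, Finset.mul_sum, Complex.re_sum]
    refine Finset.sum_congr rfl fun i _ => ?_
    have h1 : starRingEnd ℂ θ * ((w i * ((g i - α : ℝ) : ℂ)) * ((1 / (g i + c) : ℝ) : ℂ)) =
        (((g i - α) * (1 / (g i + c)) : ℝ) : ℂ) * (starRingEnd ℂ θ * w i) := by
      push_cast; ring
    rw [h1, Complex.re_ofReal_mul]
    simp only [hx]
    ring
  have hLle : (starRingEnd ℂ θ * L).re ≤ ‖L‖ := by
    have h1 : (starRingEnd ℂ θ * L).re ≤ ‖starRingEnd ℂ θ * L‖ := Complex.re_le_norm _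
    rwa [norm_mul, RCLike.norm_conj, hθn, one_mul] at h1
  have hlow : (G - α) * μ - Θ / 2 ≤ τ * ‖L‖ := by
    have h1 : ∑ i ∈ s, (τ * (x i * (G - α)) / (G + c) - (c + α) * (G - g i) / (2 * (G + c))) ≤
        ∑ i ∈ s, τ * (x i * (g i - α)) / (g i + c) :=
      Finset.sum_le_sum fun i hi => term_ineq (x i) (g i) G α c τ hc hτc
        (le_trans (by linarith [hxn i]) (hw i hi)) (hgpos i hi) (hgG i hi) hα
    have h2 : ∑ i ∈ s, τ * (x i * (g i - α)) / (g i + c) = τ * (starRingEnd ℂ θ * L).re := by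
      rw [hLre, Finset.mul_sum]
      refine Finset.sum_congr rfl fun i _ => ?_
      ring
    have h3 : ∑ i ∈ s, (τ * (x i * (G - α)) / (G + c) - (c + α) * (G - g i) / (2 * (G + c))) =
        τ * (G - α) * X / (G + c) - (c + α) * Θ / (2 * (G + c)) := by
      rw [Finset.sum_sub_distrib, hΘ, ← hxsum]
      congr 1
      · rw [Finset.mul_sum, Finset.sum_div]
        refine Finset.sum_congr rfl fun i _ => ?_
        ring
      · rw [Finset.mul_sum, Finset.sum_div]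
    have hGc : 0 < G + c := by linarith
    have h4 : τ * (G - α) * X / (G + c) - (c + α) * Θ / (2 * (G + c)) = (G - α) * μ - Θ / 2 := by
      have h5 : τ * X = μ * (G + c) - Θ / 2 := by
        rw [hcdef, hτdef]
        field_simp
        nlinarith [hμ]
      have h6 : τ * (G - α) * X = (G - α) * (μ * (G + c) - Θ / 2) := by rw [← h5]; ring
      rw [h6]
      field_simp
      ring
    rw [h3, h4, h2] at h1
    exact h1.trans (mul_le_mul_of_nonneg_left hLle hτ.le)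
  have h7 := cq_ge s g hgpos (fun i => w i * ((g i - α : ℝ) : ℂ)) c hc
  have h8 : 2 * c * ‖L‖ ^ 2 = (τ * ‖L‖) ^ 2 := by rw [mul_pow, hτc]
  calc ((G - α) * μ - Θ / 2) ^ 2 ≤ (τ * ‖L‖) ^ 2 := pow_le_pow_left₀ hf.le hlow 2
    _ = 2 * c * ‖L‖ ^ 2 := h8.symm
    _ ≤ _ := h7

/-- The final algebraic inequality. -/
theorem final_algebra (G α Θ X2 μ ρ : ℝ) (hα : 0 ≤ α) (hαG : α < G)
    (hμ0 : 0 ≤ μ) (hμ : X2 ≤ μ * (2 * G * μ - Θ))
    (h1 : ρ * (2 * ρ * G - 2 * G - 2 * α - Θ) ≤ X2)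
    (h2 : 2 * ρ * (G - α) - Θ ≤ 2 * G)
    (hS : 0 ≤ 2 * ρ * (G - α) - Θ)
    (hf : 0 ≤ (G - α) * μ - Θ / 2) :
    (2 * ρ * (G - α) - Θ) ^ 2 / 4 - ((G - α) * μ - Θ / 2) ^ 2 ≤ G ^ 2 - α ^ 2 := by
  have hG : 0 < G := lt_of_le_of_lt hα hαG
  have hs : 0 < G - α := by linarith
  set d := ρ - μ with hd
  have hE : d * ((G - α) * (2 * ρ - d) - Θ) ≤ G + α := by
    rcases le_or_gt d 0 with h0 | h0
    · have hb : 0 ≤ (G - α) * (2 * ρ - d) - Θ := by rw [hd]; nlinarith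
      nlinarith [mul_nonneg (neg_nonneg.2 h0) hb]
    · rcases le_or_gt d 1 with hd1 | hd1
      · have h3 : (G - α) * (2 * ρ - d) - Θ ≤ 2 * G - (G - α) * d := by nlinarith
        have h4 : d * ((G - α) * (2 * ρ - d) - Θ) ≤ d * (2 * G - (G - α) * d) :=
          mul_le_mul_of_nonneg_left h3 h0.le
        have h5 : 0 ≤ (1 - d) * (G + α - (G - α) * d) := by
          apply mul_nonneg (by linarith)
          nlinarith
        nlinarith
      · have h3 : d * (2 * G * (2 * ρ - d) - Θ) ≤ 2 * ρ * (G + α) := by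
          have hμd : μ = ρ - d := by rw [hd]; ring
          rw [hμd] at hμ
          nlinarith
        have h4 : 0 ≤ (d - 1) * (2 * ρ - 1 - d) := by
          apply mul_nonneg (by linarith)
          rw [hd]; linarith
        have h5 : (G + α) * (2 * ρ - d * (2 * ρ - d)) ≤ G + α := by
          nlinarith [mul_nonneg (by linarith : (0 : ℝ) ≤ G + α) h4]
        nlinarith
  have h6 : (2 * ρ * (G - α) - Θ) ^ 2 / 4 - ((G - α) * μ - Θ / 2) ^ 2 =
      (G - α) * (d * ((G - α) * (2 * ρ - d) - Θ)) := by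
    rw [hd]; ring
  rw [h6]
  calc (G - α) * (d * ((G - α) * (2 * ρ - d) - Θ)) ≤ (G - α) * (G + α) :=
        mul_le_mul_of_nonneg_left hE hs.le
    _ = G ^ 2 - α ^ 2 := by ring

/-- The main scalar inequality. -/
theorem main_scalar {ι : Type} [DecidableEq ι] (s : Finset ι) (g : ι → ℝ) (w : ι → ℂ)
    (G α : ℝ) (hα : 0 ≤ α) (hαG : α < G)
    (hgα : ∀ i ∈ s, α < g i) (hgG : ∀ i ∈ s, g i ≤ G) (hw : ∀ i ∈ s, 2 * ‖w i‖ ^ 2 ≤ g i)
    (hc : ((s.card : ℝ) / 2) * (∑ i ∈ s, g i - 2 * (G + α)) ≤ ‖∑ i ∈ s, w i‖ ^ 2)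
    (hb : ∑ i ∈ s, (g i - α) ≤ 2 * G) :
    (∑ i ∈ s, (g i - α)) ^ 2 / 4 ≤
      G ^ 2 - α ^ 2 + cq s g (fun i => w i * ((g i - α : ℝ) : ℂ)) := by
  have hG : 0 < G := lt_of_le_of_lt hα hαG
  have hs : 0 < G - α := by linarith
  have hgpos : ∀ i ∈ s, 0 < g i := fun i hi => lt_of_le_of_lt hα (hgα i hi)
  set Θ : ℝ := ∑ i ∈ s, (G - g i) with hΘ
  set X : ℝ := ‖∑ i ∈ s, w i‖ with hX
  set ρ : ℝ := (s.card : ℝ) / 2 with hρ
  have hΘ0 : 0 ≤ Θ := Finset.sum_nonneg fun i hi => by linarith [hgG i hi]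
  have hX0 : 0 ≤ X := norm_nonneg _
  have hsum : ∑ i ∈ s, g i = 2 * ρ * G - Θ := by
    rw [hΘ, Finset.sum_sub_distrib, Finset.sum_const, nsmul_eq_mul, hρ]; ring
  have hS : ∑ i ∈ s, (g i - α) = 2 * ρ * (G - α) - Θ := by
    rw [Finset.sum_sub_distrib, hsum, Finset.sum_const, nsmul_eq_mul, hρ]; ring
  have hS0 : 0 ≤ ∑ i ∈ s, (g i - α) := Finset.sum_nonneg fun i hi => by linarith [hgα i hi]
  rw [hS] at hb hS0 ⊢
  rw [hsum] at hc
  have h1 : ρ * (2 * ρ * G - 2 * G - 2 * α - Θ) ≤ X ^ 2 := by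
    have e : ρ * (2 * ρ * G - 2 * G - 2 * α - Θ) = ρ * (2 * ρ * G - Θ - 2 * (G + α)) := by ring
    rw [e]; exact hc
  -- the optimal parameter
  set μ : ℝ := (Θ + Real.sqrt (Θ ^ 2 + 8 * G * X ^ 2)) / (4 * G) with hμdef
  have hsq : Real.sqrt (Θ ^ 2 + 8 * G * X ^ 2) ^ 2 = Θ ^ 2 + 8 * G * X ^ 2 :=
    Real.sq_sqrt (by positivity)
  have hμ0 : 0 ≤ μ := by
    rw [hμdef]; positivity
  have hμ : 2 * G * μ ^ 2 - Θ * μ - X ^ 2 = 0 := by
    have e1 : 4 * G * μ - Θ = Real.sqrt (Θ ^ 2 + 8 * G * X ^ 2) := by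
      rw [hμdef]; field_simp; ring
    have e2 : (4 * G * μ - Θ) ^ 2 = Θ ^ 2 + 8 * G * X ^ 2 := by rw [e1]; exact hsq
    have e3 : 8 * G * (2 * G * μ ^ 2 - Θ * μ - X ^ 2) = 0 := by nlinarith [e2]
    rcases mul_eq_zero.1 e3 with h | h
    · exfalso; linarith
    · exact h
  have hμge : Θ ≤ 2 * G * μ := by
    rw [hμdef]
    have h3 : Θ ≤ Real.sqrt (Θ ^ 2 + 8 * G * X ^ 2) := by
      apply Real.le_sqrt_of_sq_le
      nlinarith [mul_nonneg hG.le (sq_nonneg X)]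
    have h4 : 2 * G * ((Θ + Real.sqrt (Θ ^ 2 + 8 * G * X ^ 2)) / (4 * G)) =
        (Θ + Real.sqrt (Θ ^ 2 + 8 * G * X ^ 2)) / 2 := by
      field_simp; ring
    rw [h4]; linarith
  have hQ0 : 0 ≤ cq s g (fun i => w i * ((g i - α : ℝ) : ℂ)) := cq_nonneg s g hgpos _
  rcases lt_or_ge 0 ((G - α) * μ - Θ / 2) with hf | hf
  · have h5 := cq_lower s g w G α Θ X μ hα hαG hgα hgG hw hΘ hX hμ0 hμ hf
    have h6 := final_algebra G α Θ (X ^ 2) μ ρ hα hαG hμ0 (by nlinarith [hμ]) h1 hb hS0 hf.le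
    linarith
  · set μ' : ℝ := Θ / (2 * (G - α)) with hμ'
    have hμ'0 : 0 ≤ μ' := by rw [hμ']; positivity
    have hμμ' : μ ≤ μ' := by
      rw [hμ', le_div_iff₀ (by positivity)]; nlinarith
    have hf' : (G - α) * μ' - Θ / 2 = 0 := by
      rw [hμ']; field_simp; ring
    have h5 : X ^ 2 ≤ μ' * (2 * G * μ' - Θ) := by
      nlinarith [mul_nonneg (sub_nonneg.2 hμμ') (by nlinarith : 0 ≤ 2 * G * (μ' + μ) - Θ)]
    have h6 := final_algebra G α Θ (X ^ 2) μ' ρ hα hαG hμ'0 h5 h1 hb hS0 hf'.ge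
    rw [hf'] at h6
    linarith

/-- Variance inequality for real families. -/
theorem var_le {ι : Type} [Fintype ι] [Nonempty ι] (s : Finset ι) (hs : s.Nonempty) (a : ι → ℝ) :
    ∑ i ∈ s, a i ^ 2 - (∑ i ∈ s, a i) ^ 2 / s.card ≤
      ∑ i, a i ^ 2 - (∑ i, a i) ^ 2 / Fintype.card ι := by
  set n : ℝ := (Fintype.card ι : ℝ) with hn
  set r : ℝ := (s.card : ℝ) with hr
  have hn0 : 0 < n := by rw [hn]; exact_mod_cast Fintype.card_pos
  have hr0 : 0 < r := by rw [hr]; exact_mod_cast hs.card_pos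
  set c : ℝ := (∑ i, a i) / n with hc
  have h1 : ∑ i, (a i - c) ^ 2 = ∑ i, a i ^ 2 - (∑ i, a i) ^ 2 / n := by
    have e : ∀ i, (a i - c) ^ 2 = a i ^ 2 - 2 * c * a i + c ^ 2 := fun i => by ring
    simp_rw [e]
    rw [Finset.sum_add_distrib, Finset.sum_sub_distrib, ← Finset.mul_sum, Finset.sum_const,
      Finset.card_univ, nsmul_eq_mul, ← hn, hc]
    field_simp
    ring
  have h2 : ∑ i ∈ s, (a i - c) ^ 2 ≤ ∑ i, (a i - c) ^ 2 :=
    Finset.sum_le_univ_sum_of_nonneg fun i => sq_nonneg _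
  have h3 : ∑ i ∈ s, (a i - c) ^ 2 = ∑ i ∈ s, a i ^ 2 - 2 * c * ∑ i ∈ s, a i + r * c ^ 2 := by
    have e : ∀ i, (a i - c) ^ 2 = a i ^ 2 - 2 * c * a i + c ^ 2 := fun i => by ring
    simp_rw [e]
    rw [Finset.sum_add_distrib, Finset.sum_sub_distrib, ← Finset.mul_sum, Finset.sum_const,
      nsmul_eq_mul]
  have h4 : ∑ i ∈ s, a i ^ 2 - (∑ i ∈ s, a i) ^ 2 / r ≤ ∑ i ∈ s, (a i - c) ^ 2 := by
    rw [h3]
    have h5 : 0 ≤ r * (c - (∑ i ∈ s, a i) / r) ^ 2 := by positivity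
    have h6 : r * (c - (∑ i ∈ s, a i) / r) ^ 2 =
        r * c ^ 2 - 2 * c * ∑ i ∈ s, a i + (∑ i ∈ s, a i) ^ 2 / r := by
      field_simp
      ring
    linarith
  linarith

theorem normsq_re_im (z : ℂ) : ‖z‖ ^ 2 = z.re ^ 2 + z.im ^ 2 := by
  rw [← Complex.normSq_eq_norm_sq, Complex.normSq_apply]; ring

/-- Variance inequality for complex families. -/
theorem cvar_le {ι : Type} [Fintype ι] [Nonempty ι] (s : Finset ι) (hs : s.Nonempty) (w : ι → ℂ) :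
    ∑ i ∈ s, ‖w i‖ ^ 2 - ‖∑ i ∈ s, w i‖ ^ 2 / s.card ≤
      ∑ i, ‖w i‖ ^ 2 - ‖∑ i, w i‖ ^ 2 / Fintype.card ι := by
  have h1 := var_le s hs (fun i => (w i).re)
  have h2 := var_le s hs (fun i => (w i).im)
  simp only [normsq_re_im, Complex.re_sum, Complex.im_sum, Finset.sum_add_distrib]
  rw [add_div, add_div]
  linarith

/-- Cauchy–Schwarz after removing two opposite entries (real case). -/
theorem cs_two {ι : Type} [DecidableEq ι] (s : Finset ι) (i1 i2 : ι) (h1 : i1 ∈ s)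
    (h2 : i2 ∈ s) (h12 : i1 ≠ i2) (a : ι → ℝ) (ha : a i1 + a i2 = 0) :
    (∑ i ∈ s, a i) ^ 2 ≤ ((s.card : ℝ) - 2) * (∑ i ∈ s, a i ^ 2 - 2 * a i1 ^ 2) := by
  set t : Finset ι := (s.erase i1).erase i2 with ht
  have hi2 : i2 ∈ s.erase i1 := Finset.mem_erase.2 ⟨h12.symm, h2⟩
  have hcard : (t.card : ℝ) = (s.card : ℝ) - 2 := by
    have e1 := Finset.card_erase_add_one h1
    have e2 := Finset.card_erase_add_one hi2
    have : t.card + 2 = s.card := by rw [ht]; omega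
    rw [← this]; push_cast; ring
  have hsum : ∀ f : ι → ℝ, ∑ i ∈ s, f i = f i1 + f i2 + ∑ i ∈ t, f i := by
    intro f
    rw [← Finset.add_sum_erase s f h1, ← Finset.add_sum_erase (s.erase i1) f hi2]; ring
  have hcs : (∑ i ∈ t, a i) ^ 2 ≤ (t.card : ℝ) * ∑ i ∈ t, a i ^ 2 := sq_sum_le_card_mul_sum_sq
  rw [hsum, hsum (fun i => a i ^ 2), ← hcard]
  have e3 : a i1 + a i2 + ∑ i ∈ t, a i = ∑ i ∈ t, a i := by rw [ha]; ring
  have e4 : a i1 ^ 2 + a i2 ^ 2 + ∑ i ∈ t, a i ^ 2 - 2 * a i1 ^ 2 = ∑ i ∈ t, a i ^ 2 := by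
    have : a i2 = - a i1 := by linarith
    rw [this]; ring
  rw [e3, e4]
  exact hcs

theorem ccs_two {ι : Type} [DecidableEq ι] (s : Finset ι) (i1 i2 : ι) (h1 : i1 ∈ s)
    (h2 : i2 ∈ s) (h12 : i1 ≠ i2) (w : ι → ℂ) (hw : w i1 + w i2 = 0) :
    ‖∑ i ∈ s, w i‖ ^ 2 ≤ ((s.card : ℝ) - 2) * (∑ i ∈ s, ‖w i‖ ^ 2 - 2 * ‖w i1‖ ^ 2) := by
  have hre : (w i1).re + (w i2).re = 0 := by
    have := congrArg Complex.re hw; simpa using this
  have him : (w i1).im + (w i2).im = 0 := by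
    have := congrArg Complex.im hw; simpa using this
  have e1 := cs_two s i1 i2 h1 h2 h12 (fun i => (w i).re) hre
  have e2 := cs_two s i1 i2 h1 h2 h12 (fun i => (w i).im) him
  simp only [normsq_re_im, Complex.re_sum, Complex.im_sum, Finset.sum_add_distrib]
  nlinarith

end Pool.Agent.Helper90.Lw
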